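import Pool.Agent.Helper36.KL.Goals

/-!
# Rules for the class `C1` (packet C1R of helper36)
-/

namespace Pool.Agent.Helper62.KL

open Set Filter Topology MeasureTheory Pool.Agent.Helper36.KL
open scoped ContDiff

/-- squared norm of order `m` -/
noncomputable def Q (m : ℕ) (u : ℝ → ℝ) : ℝ :=
  ∑ i ∈ Finset.range (m + 1), ∫ x, iteratedDeriv i u x ^ 2

theorem int_nonneg (u : ℝ → ℝ) (i : ℕ) : 0 ≤ ∫ x, iteratedDeriv i u x ^ 2 :=
  integral_nonneg fun _ => sq_nonneg _

theorem Q_nonneg (m : ℕ) (u : ℝ → ℝ) : 0 ≤ Q m u := Finset.sum_nonneg fun i _ => int_nonneg u i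

theorem int_le_Q {i m : ℕ} (h : i ≤ m) (u : ℝ → ℝ) : ∫ x, iteratedDeriv i u x ^ 2 ≤ Q m u :=
  Finset.single_le_sum (f := fun i => ∫ x, iteratedDeriv i u x ^ 2)
    (fun i _ => int_nonneg u i) (Finset.mem_range.2 (Nat.lt_succ_of_le h))

theorem int_add_le {u v : ℝ → ℝ} (hu : u ∈ HI) (hv : v ∈ HI) :
    ∫ x, (u + v) x ^ 2 ≤ 2 * (∫ x, u x ^ 2) + 2 * ∫ x, v x ^ 2 := by
  rw [← integral_const_mul, ← integral_const_mul,
    ← integral_add ((int_sq hu).const_mul 2) ((int_sq hv).const_mul 2)]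
  refine integral_mono (int_sq (HI.add_mem hu hv))
    (((int_sq hu).const_mul 2).add ((int_sq hv).const_mul 2)) fun x => ?_
  simp only [Pi.add_apply]
  nlinarith [sq_nonneg (u x - v x)]

theorem intD_add_le {u v : ℝ → ℝ} (hu : u ∈ HI) (hv : v ∈ HI) (k : ℕ) :
    ∫ x, iteratedDeriv k (u + v) x ^ 2 ≤
      2 * (∫ x, iteratedDeriv k u x ^ 2) + 2 * ∫ x, iteratedDeriv k v x ^ 2 := by
  rw [iter_add hu.1 hv.1]
  exact int_add_le (iter_mem hu k) (iter_mem hv k)

theorem Q_add_le {u v : ℝ → ℝ} (hu : u ∈ HI) (hv : v ∈ HI) (m : ℕ) :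
    Q m (u + v) ≤ 2 * Q m u + 2 * Q m v := by
  simp only [Q, Finset.mul_sum]
  rw [← Finset.sum_add_distrib]
  exact Finset.sum_le_sum fun i _ => intD_add_le hu hv i

theorem Q_smul {u : ℝ → ℝ} (hu : u ∈ HI) (c : ℝ) (m : ℕ) : Q m (c • u) = c ^ 2 * Q m u := by
  simp only [Q, Finset.mul_sum]
  refine Finset.sum_congr rfl fun i _ => ?_
  rw [iter_smul hu.1, ← integral_const_mul]
  refine integral_congr_ae (ae_of_all _ fun x => ?_)
  simp only [Pi.smul_apply, smul_eq_mul]
  ring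

theorem Q_D1_le (u : ℝ → ℝ) (m : ℕ) : Q m (iteratedDeriv 1 u) ≤ Q (m + 1) u := by
  simp only [Q, iter_iter]
  rw [Finset.sum_range_succ' _ (m + 1)]
  have := int_nonneg u 0
  linarith

theorem Q_mono {m n : ℕ} (h : m ≤ n) (u : ℝ → ℝ) : Q m u ≤ Q n u :=
  Finset.sum_le_sum_of_subset_of_nonneg (Finset.range_subset_range.2 (by omega))
    fun i _ _ => int_nonneg u i

theorem iter_succ_mul {u v : ℝ → ℝ} (hu : u ∈ HI) (hv : v ∈ HI) (k : ℕ) :
    iteratedDeriv (k + 1) (u * v) =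
      iteratedDeriv k (iteratedDeriv 1 u * v) + iteratedDeriv k (u * iteratedDeriv 1 v) := by
  have h1 : deriv (u * v) = iteratedDeriv 1 u * v + u * iteratedDeriv 1 v := by
    funext x
    have hu' : HasDerivAt u (iteratedDeriv 1 u x) x := by
      simpa using hasDerivAt_iter hu.1 0 x
    have hv' : HasDerivAt v (iteratedDeriv 1 v x) x := by
      simpa using hasDerivAt_iter hv.1 0 x
    rw [(hu'.mul hv').deriv]
    rfl
  have c1 : ContDiff ℝ ∞ (iteratedDeriv 1 u * v) := (iter_mem hu 1).1.mul hv.1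
  have c2 : ContDiff ℝ ∞ (u * iteratedDeriv 1 v) := hu.1.mul (iter_mem hv 1).1
  rw [iteratedDeriv_succ', h1, iter_add c1 c2]

theorem prod_est (k : ℕ) : ∃ C, 0 ≤ C ∧ ∀ u v : ℝ → ℝ, u ∈ HI → v ∈ HI →
    ∫ x, iteratedDeriv k (u * v) x ^ 2 ≤ C * (Q (k + 1) u * Q (k + 1) v) := by
  induction k with
  | zero =>
    refine ⟨1, zero_le_one, fun u v hu hv => ?_⟩
    have hs : ∀ x, u x ^ 2 ≤ Q 1 u := by
      intro x
      have h := sup_sq_le hu x
      have h2 : Q 1 u = (∫ y, u y ^ 2) + ∫ y, iteratedDeriv 1 u y ^ 2 := by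
        simp [Q, Finset.sum_range_succ]
      rw [h2]
      exact h
    have h1 : ∫ x, iteratedDeriv 0 (u * v) x ^ 2 ≤ ∫ x, Q 1 u * v x ^ 2 := by
      rw [iteratedDeriv_zero]
      refine integral_mono (int_sq (mul_mem hu hv)) ((int_sq hv).const_mul _) fun x => ?_
      simp only [Pi.mul_apply]
      rw [mul_pow]
      exact mul_le_mul_of_nonneg_right (hs x) (sq_nonneg _)
    rw [integral_const_mul] at h1
    rw [one_mul]
    refine h1.trans (mul_le_mul_of_nonneg_left ?_ (Q_nonneg _ _))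
    have := int_le_Q (Nat.zero_le 1) v
    simpa using this
  | succ k ih =>
    obtain ⟨C, hC, h⟩ := ih
    refine ⟨4 * C, by positivity, fun u v hu hv => ?_⟩
    rw [iter_succ_mul hu hv]
    have e1 := int_add_le (iter_mem (mul_mem (iter_mem hu 1) hv) k)
      (iter_mem (mul_mem hu (iter_mem hv 1)) k)
    have h1 := h _ _ (iter_mem hu 1) hv
    have h2 := h _ _ hu (iter_mem hv 1)
    have a1 : Q (k + 1) (iteratedDeriv 1 u) * Q (k + 1) v ≤ Q (k + 1 + 1) u * Q (k + 1 + 1) v :=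
      mul_le_mul (Q_D1_le u _) (Q_mono (by omega) v) (Q_nonneg _ _) (Q_nonneg _ _)
    have a2 : Q (k + 1) u * Q (k + 1) (iteratedDeriv 1 v) ≤ Q (k + 1 + 1) u * Q (k + 1 + 1) v :=
      mul_le_mul (Q_mono (by omega) u) (Q_D1_le v _) (Q_nonneg _ _) (Q_nonneg _ _)
    have b1 := mul_le_mul_of_nonneg_left a1 hC
    have b2 := mul_le_mul_of_nonneg_left a2 hC
    linarith

theorem Q_mul (m : ℕ) : ∃ C, 0 ≤ C ∧ ∀ u v : ℝ → ℝ, u ∈ HI → v ∈ HI →
    Q m (u * v) ≤ C * (Q (m + 1) u * Q (m + 1) v) := by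
  choose C hC h using prod_est
  refine ⟨∑ i ∈ Finset.range (m + 1), C i, Finset.sum_nonneg fun i _ => hC i,
    fun u v hu hv => ?_⟩
  rw [Q, Finset.sum_mul]
  refine Finset.sum_le_sum fun i hi => ?_
  have hi' := Finset.mem_range.1 hi
  exact (h i u v hu hv).trans (mul_le_mul_of_nonneg_left
    (mul_le_mul (Q_mono (by omega) u) (Q_mono (by omega) v) (Q_nonneg _ _) (Q_nonneg _ _)) (hC i))

/-- Cauchy-Schwarz -/
theorem cs {u v : ℝ → ℝ} (hu : u ∈ HI) (hv : v ∈ HI) :
    (∫ x, u x * v x) ^ 2 ≤ (∫ x, u x ^ 2) * ∫ x, v x ^ 2 := by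
  have h : ∀ t : ℝ, 0 ≤ (∫ x, v x ^ 2) * (t * t) + 2 * (∫ x, u x * v x) * t + ∫ x, u x ^ 2 := by
    intro t
    have h1 : 0 ≤ ∫ x, (u x + t * v x) ^ 2 := integral_nonneg fun _ => sq_nonneg _
    have h2 : ∫ x, (u x + t * v x) ^ 2 =
        ∫ x, (t * t) * v x ^ 2 + ((2 * t) * (u x * v x) + u x ^ 2) := by
      refine integral_congr_ae (ae_of_all _ fun x => ?_)
      simp only []
      ring
    have e1 : ∫ x, (t * t) * v x ^ 2 + ((2 * t) * (u x * v x) + u x ^ 2) =
        (∫ x, (t * t) * v x ^ 2) + ∫ x, ((2 * t) * (u x * v x) + u x ^ 2) :=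
      integral_add ((int_sq hv).const_mul _) (((int_mul hu hv).const_mul _).add (int_sq hu))
    have e2 : ∫ x, ((2 * t) * (u x * v x) + u x ^ 2) =
        (∫ x, (2 * t) * (u x * v x)) + ∫ x, u x ^ 2 :=
      integral_add ((int_mul hu hv).const_mul _) (int_sq hu)
    rw [h2, e1, e2, integral_const_mul, integral_const_mul] at h1
    linarith
  have h2 := discrim_le_zero h
  rw [discrim] at h2
  nlinarith

section C1

variable {a b : ℝ} {f f' g g' : ℝ → ℝ → ℝ}

theorem C1bdd (h : C1 a b f f') (m : ℕ) : ∃ L, 0 ≤ L ∧ ∀ t ∈ Icc a b, Q m (f t) ≤ L := by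
  choose L hL using h.bdd
  refine ⟨∑ i ∈ Finset.range (m + 1), |L i|, Finset.sum_nonneg fun i _ => abs_nonneg _,
    fun t ht => Finset.sum_le_sum fun i _ => (hL i t ht).trans (le_abs_self _)⟩

theorem C1bdd' (h : C1 a b f f') (m : ℕ) : ∃ L, 0 ≤ L ∧ ∀ t ∈ Icc a b, Q m (f' t) ≤ L := by
  choose L hL using h.bdd'
  refine ⟨∑ i ∈ Finset.range (m + 1), |L i|, Finset.sum_nonneg fun i _ => abs_nonneg _,
    fun t ht => Finset.sum_le_sum fun i _ => (hL i t ht).trans (le_abs_self _)⟩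

theorem C1L2 (h : C1 a b f f') (m : ℕ) : ∀ t ∈ Icc a b, ∀ δ > 0, ∃ η > 0, ∀ s ∈ Icc a b,
    |s - t| ≤ η → Q m (f s - f t - (s - t) • f' t) ≤ δ * (s - t) ^ 2 := by
  intro t ht δ hδ
  have hd : 0 < δ / (m + 1) := by positivity
  have h1 : ∀ i, ∃ η > 0, ∀ s ∈ Icc a b, |s - t| ≤ η →
    ∫ x, iteratedDeriv i (f s - f t - (s - t) • f' t) x ^ 2 ≤ δ / (m + 1) * (s - t) ^ 2 :=
    fun i => h.derL2 i t ht _ hd
  choose η hη h2 using h1
  have hne : (Finset.range (m + 1)).Nonempty := ⟨0, by simp⟩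
  refine ⟨(Finset.range (m + 1)).inf' hne η, ?_, fun s hs hst => ?_⟩
  · rw [gt_iff_lt, Finset.lt_inf'_iff]
    exact fun i _ => hη i
  · have h3 : Q m (f s - f t - (s - t) • f' t) ≤
        ∑ _i ∈ Finset.range (m + 1), δ / (m + 1) * (s - t) ^ 2 :=
      Finset.sum_le_sum fun i hi => h2 i s hs (hst.trans (Finset.inf'_le _ hi))
    refine h3.trans (le_of_eq ?_)
    rw [Finset.sum_const, Finset.card_range, nsmul_eq_mul]
    push_cast
    field_simp

theorem C1lip (h : C1 a b f f') (m : ℕ) : ∀ t ∈ Icc a b, ∃ L, 0 ≤ L ∧ ∃ η > 0, ∀ s ∈ Icc a b,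
    |s - t| ≤ η → Q m (f s - f t) ≤ L * (s - t) ^ 2 := by
  intro t ht
  obtain ⟨η, hη, h1⟩ := C1L2 h m t ht 1 one_pos
  refine ⟨2 + 2 * Q m (f' t), by have := Q_nonneg m (f' t); positivity, η, hη,
    fun s hs hst => ?_⟩
  have e : f s - f t = (f s - f t - (s - t) • f' t) + (s - t) • f' t := by abel
  have m1 : f s - f t - (s - t) • f' t ∈ HI :=
    HI.sub_mem (HI.sub_mem (h.mem s hs) (h.mem t ht)) (HI.smul_mem _ (h.mem' t ht))
  have m2 : (s - t) • f' t ∈ HI := HI.smul_mem _ (h.mem' t ht)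
  have h2 := Q_add_le m1 m2 m
  rw [← e, Q_smul (h.mem' t ht)] at h2
  have h3 := h1 s hs hst
  linarith

theorem C1add (h : C1 a b f f') (h' : C1 a b g g') :
    C1 a b (fun t => f t + g t) (fun t => f' t + g' t) where
  mem t ht := HI.add_mem (h.mem t ht) (h'.mem t ht)
  mem' t ht := HI.add_mem (h.mem' t ht) (h'.mem' t ht)
  bdd k := by
    obtain ⟨L, hL⟩ := h.bdd k
    obtain ⟨L', hL'⟩ := h'.bdd k
    refine ⟨2 * L + 2 * L', fun t ht => ?_⟩
    have := intD_add_le (h.mem t ht) (h'.mem t ht) k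
    have := hL t ht
    have := hL' t ht
    linarith
  bdd' k := by
    obtain ⟨L, hL⟩ := h.bdd' k
    obtain ⟨L', hL'⟩ := h'.bdd' k
    refine ⟨2 * L + 2 * L', fun t ht => ?_⟩
    have := intD_add_le (h.mem' t ht) (h'.mem' t ht) k
    have := hL t ht
    have := hL' t ht
    linarith
  cont k := by
    refine ((h.cont k).add (h'.cont k)).congr fun p hp => ?_
    simp only [iter_add (h.mem p.1 hp.1).1 (h'.mem p.1 hp.1).1, Pi.add_apply]
  cont' k := by
    refine ((h.cont' k).add (h'.cont' k)).congr fun p hp => ?_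
    simp only [iter_add (h.mem' p.1 hp.1).1 (h'.mem' p.1 hp.1).1, Pi.add_apply]
  der k x t ht := by
    rw [iter_add (h.mem' t ht).1 (h'.mem' t ht).1]
    refine ((h.der k x t ht).add (h'.der k x t ht)).congr (fun s hs => ?_) ?_
    · rw [iter_add (h.mem s hs).1 (h'.mem s hs).1]; rfl
    · rw [iter_add (h.mem t ht).1 (h'.mem t ht).1]; rfl
  derL2 k t ht δ hδ := by
    obtain ⟨η, hη, h1⟩ := h.derL2 k t ht (δ / 4) (by positivity)
    obtain ⟨η', hη', h1'⟩ := h'.derL2 k t ht (δ / 4) (by positivity)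
    refine ⟨min η η', lt_min hη hη', fun s hs hst => ?_⟩
    have e : f s + g s - (f t + g t) - (s - t) • (f' t + g' t) =
        (f s - f t - (s - t) • f' t) + (g s - g t - (s - t) • g' t) := by
      rw [smul_add]; abel
    rw [e]
    have m1 : f s - f t - (s - t) • f' t ∈ HI :=
      HI.sub_mem (HI.sub_mem (h.mem s hs) (h.mem t ht)) (HI.smul_mem _ (h.mem' t ht))
    have m2 : g s - g t - (s - t) • g' t ∈ HI :=
      HI.sub_mem (HI.sub_mem (h'.mem s hs) (h'.mem t ht)) (HI.smul_mem _ (h'.mem' t ht))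
    have h2 := intD_add_le m1 m2 k
    have h3 := h1 s hs (hst.trans (min_le_left _ _))
    have h4 := h1' s hs (hst.trans (min_le_right _ _))
    linarith

theorem leib {u v : ℝ → ℝ} (hu : u ∈ HI) (hv : v ∈ HI) (k : ℕ) (x : ℝ) :
    iteratedDeriv k (u * v) x = ∑ i ∈ Finset.range (k + 1),
      (k.choose i : ℝ) * iteratedDeriv i u x * iteratedDeriv (k - i) v x :=
  iteratedDeriv_mul (contDiff_nat hu.1 k).contDiffAt (contDiff_nat hv.1 k).contDiffAt

theorem contmul {f g : ℝ → ℝ → ℝ} (hf : ∀ t ∈ Icc a b, f t ∈ HI) (hg : ∀ t ∈ Icc a b, g t ∈ HI)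
    (cf : ∀ k, ContinuousOn (fun p : ℝ × ℝ => iteratedDeriv k (f p.1) p.2) (Icc a b ×ˢ univ))
    (cg : ∀ k, ContinuousOn (fun p : ℝ × ℝ => iteratedDeriv k (g p.1) p.2) (Icc a b ×ˢ univ))
    (k : ℕ) : ContinuousOn (fun p : ℝ × ℝ => iteratedDeriv k (f p.1 * g p.1) p.2)
      (Icc a b ×ˢ univ) := by
  have h : ContinuousOn (fun p : ℝ × ℝ => ∑ i ∈ Finset.range (k + 1),
      (k.choose i : ℝ) * iteratedDeriv i (f p.1) p.2 * iteratedDeriv (k - i) (g p.1) p.2)
      (Icc a b ×ˢ univ) :=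
    continuousOn_finsetSum _ fun i _ => (continuousOn_const.mul (cf i)).mul (cg (k - i))
  exact h.congr fun p hp => leib (hf p.1 hp.1) (hg p.1 hp.1) k p.2

theorem bddmul {f g : ℝ → ℝ → ℝ} (hf : ∀ t ∈ Icc a b, f t ∈ HI) (hg : ∀ t ∈ Icc a b, g t ∈ HI)
    (bf : ∀ m, ∃ L, 0 ≤ L ∧ ∀ t ∈ Icc a b, Q m (f t) ≤ L)
    (bg : ∀ m, ∃ L, 0 ≤ L ∧ ∀ t ∈ Icc a b, Q m (g t) ≤ L) (k : ℕ) :
    ∃ L, ∀ t ∈ Icc a b, ∫ x, iteratedDeriv k (f t * g t) x ^ 2 ≤ L := by
  obtain ⟨C, hC, h⟩ := prod_est k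
  obtain ⟨L, hL, h1⟩ := bf (k + 1)
  obtain ⟨L', hL', h2⟩ := bg (k + 1)
  refine ⟨C * (L * L'), fun t ht => (h _ _ (hf t ht) (hg t ht)).trans
    (mul_le_mul_of_nonneg_left (mul_le_mul (h1 t ht) (h2 t ht) (Q_nonneg _ _) hL) hC)⟩

theorem C1mul (h : C1 a b f f') (h' : C1 a b g g') :
    C1 a b (fun t => f t * g t) (fun t => f' t * g t + f t * g' t) where
  mem t ht := mul_mem (h.mem t ht) (h'.mem t ht)
  mem' t ht := HI.add_mem (mul_mem (h.mem' t ht) (h'.mem t ht))
    (mul_mem (h.mem t ht) (h'.mem' t ht))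
  bdd k := bddmul h.mem h'.mem (C1bdd h) (C1bdd h') k
  bdd' k := by
    obtain ⟨L, hL⟩ := bddmul h.mem' h'.mem (C1bdd' h) (C1bdd h') k
    obtain ⟨L', hL'⟩ := bddmul h.mem h'.mem' (C1bdd h) (C1bdd' h') k
    refine ⟨2 * L + 2 * L', fun t ht => ?_⟩
    have := intD_add_le (mul_mem (h.mem' t ht) (h'.mem t ht))
      (mul_mem (h.mem t ht) (h'.mem' t ht)) k
    have := hL t ht
    have := hL' t ht
    linarith
  cont k := contmul h.mem h'.mem h.cont h'.cont k
  cont' k := by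
    refine ((contmul h.mem' h'.mem h.cont' h'.cont k).add
      (contmul h.mem h'.mem' h.cont h'.cont' k)).congr fun p hp => ?_
    simp only [iter_add (mul_mem (h.mem' p.1 hp.1) (h'.mem p.1 hp.1)).1
      (mul_mem (h.mem p.1 hp.1) (h'.mem' p.1 hp.1)).1, Pi.add_apply]
  der k x t ht := by
    rw [iter_add (mul_mem (h.mem' t ht) (h'.mem t ht)).1
      (mul_mem (h.mem t ht) (h'.mem' t ht)).1, Pi.add_apply, leib (h.mem' t ht) (h'.mem t ht),
      leib (h.mem t ht) (h'.mem' t ht), ← Finset.sum_add_distrib]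
    have h1 : HasDerivWithinAt (fun s => ∑ i ∈ Finset.range (k + 1),
        (k.choose i : ℝ) * iteratedDeriv i (f s) x * iteratedDeriv (k - i) (g s) x)
        (∑ i ∈ Finset.range (k + 1),
          ((k.choose i : ℝ) * iteratedDeriv i (f' t) x * iteratedDeriv (k - i) (g t) x +
          (k.choose i : ℝ) * iteratedDeriv i (f t) x * iteratedDeriv (k - i) (g' t) x))
        (Icc a b) t := by
      refine HasDerivWithinAt.fun_sum fun i _ => ?_
      exact ((h.der i x t ht).const_mul _).mul (h'.der (k - i) x t ht)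
    exact h1.congr (fun s hs => leib (h.mem s hs) (h'.mem s hs) k x)
      (leib (h.mem t ht) (h'.mem t ht) k x)
  derL2 k t ht δ hδ := by
    obtain ⟨C, hC, hp⟩ := prod_est k
    obtain ⟨Lg, hLg, bg⟩ := C1bdd h' (k + 1)
    obtain ⟨Lg', hLg', η1, hη1, lg⟩ := C1lip h' (k + 1) t ht
    set A := Q (k + 1) (f t) with hA
    set A' := Q (k + 1) (f' t) with hA'
    have hA0 : 0 ≤ A := Q_nonneg _ _
    have hA0' : 0 ≤ A' := Q_nonneg _ _
    set M := C * (Lg + A) + 1 with hM
    have hM0 : 0 < M := by positivity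
    obtain ⟨η2, hη2, rf⟩ := C1L2 h (k + 1) t ht (δ / (16 * M)) (by positivity)
    obtain ⟨η3, hη3, rg⟩ := C1L2 h' (k + 1) t ht (δ / (16 * M)) (by positivity)
    set η4 := Real.sqrt (δ / (16 * (C * A' * Lg' + 1))) with hη4
    have hη4p : 0 < η4 := Real.sqrt_pos.2 (by positivity)
    refine ⟨min (min η1 η2) (min η3 η4), by positivity, fun s hs hst => ?_⟩
    have hs1 : |s - t| ≤ η1 := hst.trans ((min_le_left _ _).trans (min_le_left _ _))
    have hs2 : |s - t| ≤ η2 := hst.trans ((min_le_left _ _).trans (min_le_right _ _))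
    have hs3 : |s - t| ≤ η3 := hst.trans ((min_le_right _ _).trans (min_le_left _ _))
    have hs4 : |s - t| ≤ η4 := hst.trans ((min_le_right _ _).trans (min_le_right _ _))
    have m1 : f s - f t - (s - t) • f' t ∈ HI :=
      HI.sub_mem (HI.sub_mem (h.mem s hs) (h.mem t ht)) (HI.smul_mem _ (h.mem' t ht))
    have m2 : g s - g t - (s - t) • g' t ∈ HI :=
      HI.sub_mem (HI.sub_mem (h'.mem s hs) (h'.mem t ht)) (HI.smul_mem _ (h'.mem' t ht))
    have m3 : g s - g t ∈ HI := HI.sub_mem (h'.mem s hs) (h'.mem t ht)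
    have m4 : (s - t) • f' t ∈ HI := HI.smul_mem _ (h.mem' t ht)
    have e : f s * g s - f t * g t - (s - t) • (f' t * g t + f t * g' t) =
        ((f s - f t - (s - t) • f' t) * g s + ((s - t) • f' t) * (g s - g t)) +
        f t * (g s - g t - (s - t) • g' t) := by
      funext x
      simp only [Pi.sub_apply, Pi.mul_apply, Pi.smul_apply, Pi.add_apply, smul_eq_mul]
      ring
    rw [e]
    have n1 := mul_mem m1 (h'.mem s hs)
    have n2 := mul_mem m4 m3
    have n3 := mul_mem (h.mem t ht) m2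
    have i1 := intD_add_le (HI.add_mem n1 n2) n3 k
    have i2 := intD_add_le n1 n2 k
    have j1 := hp _ _ m1 (h'.mem s hs)
    have j2 := hp _ _ m4 m3
    have j3 := hp _ _ (h.mem t ht) m2
    rw [Q_smul (h.mem' t ht)] at j2
    have r1 := rf s hs hs2
    have r2 := lg s hs hs1
    have r3 := rg s hs hs3
    have r4 := bg s hs
    set w := (s - t) ^ 2 with hw
    have hw0 : 0 ≤ w := sq_nonneg _
    have hw4 : w ≤ δ / (16 * (C * A' * Lg' + 1)) := by
      have := pow_le_pow_left₀ (abs_nonneg (s - t)) hs4 2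
      rw [sq_abs, hη4, Real.sq_sqrt (by positivity)] at this
      exact this
    have k1 : C * (Q (k + 1) (f s - f t - (s - t) • f' t) * Q (k + 1) (g s)) ≤
        C * ((δ / (16 * M) * w) * Lg) :=
      mul_le_mul_of_nonneg_left (mul_le_mul r1 r4 (Q_nonneg _ _) (by positivity)) hC
    have k2 : C * (w * A' * Q (k + 1) (g s - g t)) ≤ C * (w * A' * (Lg' * w)) :=
      mul_le_mul_of_nonneg_left (mul_le_mul_of_nonneg_left r2 (by positivity)) hC
    have k3 : C * (A * Q (k + 1) (g s - g t - (s - t) • g' t)) ≤ C * (A * (δ / (16 * M) * w)) :=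
      mul_le_mul_of_nonneg_left (mul_le_mul_of_nonneg_left r3 hA0) hC
    have l1 : C * ((δ / (16 * M) * w) * Lg) + C * (A * (δ / (16 * M) * w)) ≤ δ / 16 * w := by
      have : C * ((δ / (16 * M) * w) * Lg) + C * (A * (δ / (16 * M) * w)) =
          (C * (Lg + A)) / M * (δ / 16 * w) := by
        field_simp
      rw [this]
      have h1 : C * (Lg + A) / M ≤ 1 := by
        rw [div_le_one hM0]
        linarith
      have h2 : 0 ≤ δ / 16 * w := by positivity
      nlinarith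
    have l2 : C * (w * A' * (Lg' * w)) ≤ δ / 16 * w := by
      have h1 : C * (w * A' * (Lg' * w)) = (C * A' * Lg') * w * w := by ring
      have h2 : (C * A' * Lg') * w ≤ δ / 16 := by
        have h3 : (C * A' * Lg') * w ≤ (C * A' * Lg' + 1) * (δ / (16 * (C * A' * Lg' + 1))) :=
          mul_le_mul (by linarith) hw4 hw0 (by positivity)
        have h4 : (C * A' * Lg' + 1) * (δ / (16 * (C * A' * Lg' + 1))) = δ / 16 := by
          have : 0 < C * A' * Lg' + 1 := by positivity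
          field_simp
        linarith
      rw [h1]
      exact mul_le_mul_of_nonneg_right h2 hw0
    have h5 : 0 ≤ C * ((δ / (16 * M) * w) * Lg) := by positivity
    have h6 : 0 ≤ C * (A * (δ / (16 * M) * w)) := by positivity
    have h7 : 0 ≤ δ * w := by positivity
    linarith

theorem C1D (h : C1 a b f f') (k : ℕ) :
    C1 a b (fun t => iteratedDeriv k (f t)) (fun t => iteratedDeriv k (f' t)) where
  mem t ht := iter_mem (h.mem t ht) k
  mem' t ht := iter_mem (h.mem' t ht) k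
  bdd l := by simpa only [iter_iter] using h.bdd (l + k)
  bdd' l := by simpa only [iter_iter] using h.bdd' (l + k)
  cont l := by simpa only [iter_iter] using h.cont (l + k)
  cont' l := by simpa only [iter_iter] using h.cont' (l + k)
  der l x t ht := by simpa only [iter_iter] using h.der (l + k) x t ht
  derL2 l t ht δ hδ := by
    obtain ⟨η, hη, h1⟩ := h.derL2 (l + k) t ht δ hδ
    refine ⟨η, hη, fun s hs hst => ?_⟩
    have e : iteratedDeriv k (f s) - iteratedDeriv k (f t) - (s - t) • iteratedDeriv k (f' t) =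
        iteratedDeriv k (f s - f t - (s - t) • f' t) := by
      have h2 := (D k).map_sub (⟨f s, h.mem s hs⟩ - ⟨f t, h.mem t ht⟩)
        ((s - t) • ⟨f' t, h.mem' t ht⟩)
      have h3 := (D k).map_sub ⟨f s, h.mem s hs⟩ ⟨f t, h.mem t ht⟩
      have h4 := (D k).map_smul (s - t) ⟨f' t, h.mem' t ht⟩
      rw [h3, h4] at h2
      exact (congrArg Subtype.val h2).symm
    rw [e, iter_iter]
    exact h1 s hs hst

theorem C1res {a' b' : ℝ} (h : C1 a b f f') (ha : a ≤ a') (hb : b' ≤ b) : C1 a' b' f f' := by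
  have hsub : Icc a' b' ⊆ Icc a b := Icc_subset_Icc ha hb
  exact
  { mem := fun t ht => h.mem t (hsub ht)
    mem' := fun t ht => h.mem' t (hsub ht)
    bdd := fun k => by
      obtain ⟨L, hL⟩ := h.bdd k
      exact ⟨L, fun t ht => hL t (hsub ht)⟩
    bdd' := fun k => by
      obtain ⟨L, hL⟩ := h.bdd' k
      exact ⟨L, fun t ht => hL t (hsub ht)⟩
    cont := fun k => (h.cont k).mono (prod_mono hsub subset_rfl)
    cont' := fun k => (h.cont' k).mono (prod_mono hsub subset_rfl)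
    der := fun k x t ht => (h.der k x t (hsub ht)).mono hsub
    derL2 := fun k t ht δ hδ => by
      obtain ⟨η, hη, h1⟩ := h.derL2 k t (hsub ht) δ hδ
      exact ⟨η, hη, fun s hs => h1 s (hsub hs)⟩ }

theorem C1trans (h : C1 a b f f') (c : ℝ) :
    C1 (a + c) (b + c) (fun t => f (t - c)) (fun t => f' (t - c)) := by
  have hsub : ∀ t ∈ Icc (a + c) (b + c), t - c ∈ Icc a b := fun t ht =>
    ⟨by linarith [ht.1], by linarith [ht.2]⟩
  have hcont : ContinuousOn (fun p : ℝ × ℝ => (p.1 - c, p.2)) (Icc (a + c) (b + c) ×ˢ univ) :=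
    (by fun_prop : Continuous fun p : ℝ × ℝ => (p.1 - c, p.2)).continuousOn
  exact
  { mem := fun t ht => h.mem _ (hsub t ht)
    mem' := fun t ht => h.mem' _ (hsub t ht)
    bdd := fun k => by
      obtain ⟨L, hL⟩ := h.bdd k
      exact ⟨L, fun t ht => hL _ (hsub t ht)⟩
    bdd' := fun k => by
      obtain ⟨L, hL⟩ := h.bdd' k
      exact ⟨L, fun t ht => hL _ (hsub t ht)⟩
    cont := fun k => (h.cont k).comp hcont fun p hp => ⟨hsub _ hp.1, mem_univ _⟩
    cont' := fun k => (h.cont' k).comp hcont fun p hp => ⟨hsub _ hp.1, mem_univ _⟩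
    der := fun k x t ht => by
      have h1 : HasDerivWithinAt (fun s : ℝ => s - c) 1 (Icc (a + c) (b + c)) t :=
        (hasDerivWithinAt_id t _).sub_const c
      have h2 := HasDerivWithinAt.comp t (h.der k x (t - c) (hsub t ht)) h1 hsub
      rw [mul_one] at h2
      exact h2
    derL2 := fun k t ht δ hδ => by
      obtain ⟨η, hη, h1⟩ := h.derL2 k _ (hsub t ht) δ hδ
      refine ⟨η, hη, fun s hs hst => ?_⟩
      have h2 := h1 (s - c) (hsub s hs) (by rw [show s - c - (t - c) = s - t by ring]; exact hst)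
      rw [show s - c - (t - c) = s - t by ring] at h2
      exact h2 }

theorem C1glue {a b c : ℝ} {f f' g g' : ℝ → ℝ → ℝ} (hab : a ≤ b) (hbc : b ≤ c)
    (h : C1 a b f f') (h' : C1 b c g g') (e : f b = g b) (e' : f' b = g' b) :
    C1 a c (fun t => if t ≤ b then f t else g t) (fun t => if t ≤ b then f' t else g' t) := by
  have hF : ∀ t ∈ Icc a b, (if t ≤ b then f t else g t) = f t := fun t ht => if_pos ht.2
  have hF' : ∀ t ∈ Icc a b, (if t ≤ b then f' t else g' t) = f' t := fun t ht => if_pos ht.2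
  have hG : ∀ t ∈ Icc b c, (if t ≤ b then f t else g t) = g t := by
    intro t ht
    rcases eq_or_lt_of_le ht.1 with h1 | h1
    · subst h1
      rw [if_pos le_rfl, e]
    · rw [if_neg (not_le.2 h1)]
  have hG' : ∀ t ∈ Icc b c, (if t ≤ b then f' t else g' t) = g' t := by
    intro t ht
    rcases eq_or_lt_of_le ht.1 with h1 | h1
    · subst h1
      rw [if_pos le_rfl, e']
    · rw [if_neg (not_le.2 h1)]
  have hcases : ∀ t ∈ Icc a c, t ∈ Icc a b ∨ t ∈ Icc b c := by
    intro t ht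
    rcases le_total t b with h1 | h1
    · exact Or.inl ⟨ht.1, h1⟩
    · exact Or.inr ⟨h1, ht.2⟩
  have hun : Icc a c = Icc a b ∪ Icc b c := (Icc_union_Icc_eq_Icc hab hbc).symm
  have hunp : Icc a c ×ˢ (univ : Set ℝ) = Icc a b ×ˢ univ ∪ Icc b c ×ˢ univ := by
    rw [hun, union_prod]
  exact
  { mem := fun t ht => by
      rcases hcases t ht with h1 | h1
      · simpa only [hF t h1] using h.mem t h1
      · simpa only [hG t h1] using h'.mem t h1
    mem' := fun t ht => by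
      rcases hcases t ht with h1 | h1
      · simpa only [hF' t h1] using h.mem' t h1
      · simpa only [hG' t h1] using h'.mem' t h1
    bdd := fun k => by
      obtain ⟨L, hL⟩ := h.bdd k
      obtain ⟨L', hL'⟩ := h'.bdd k
      refine ⟨max L L', fun t ht => ?_⟩
      rcases hcases t ht with h1 | h1
      · simp only [hF t h1]
        exact (hL t h1).trans (le_max_left _ _)
      · simp only [hG t h1]
        exact (hL' t h1).trans (le_max_right _ _)
    bdd' := fun k => by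
      obtain ⟨L, hL⟩ := h.bdd' k
      obtain ⟨L', hL'⟩ := h'.bdd' k
      refine ⟨max L L', fun t ht => ?_⟩
      rcases hcases t ht with h1 | h1
      · simp only [hF' t h1]
        exact (hL t h1).trans (le_max_left _ _)
      · simp only [hG' t h1]
        exact (hL' t h1).trans (le_max_right _ _)
    cont := fun k => by
      rw [hunp]
      refine ContinuousOn.union_of_isClosed ?_ ?_ (isClosed_Icc.prod isClosed_univ)
        (isClosed_Icc.prod isClosed_univ)
      · exact (h.cont k).congr fun p hp => by simp only [hF p.1 hp.1]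
      · exact (h'.cont k).congr fun p hp => by simp only [hG p.1 hp.1]
    cont' := fun k => by
      rw [hunp]
      refine ContinuousOn.union_of_isClosed ?_ ?_ (isClosed_Icc.prod isClosed_univ)
        (isClosed_Icc.prod isClosed_univ)
      · exact (h.cont' k).congr fun p hp => by simp only [hF' p.1 hp.1]
      · exact (h'.cont' k).congr fun p hp => by simp only [hG' p.1 hp.1]
    der := fun k x t ht => by
      rw [hun]
      refine HasDerivWithinAt.union ?_ ?_
      · by_cases h1 : t ∈ Icc a b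
        · rw [hF' t h1]
          exact (h.der k x t h1).congr (fun s hs => by rw [hF s hs]) (by rw [hF t h1])
        · exact HasFDerivWithinAt.of_notMem_closure (by rwa [isClosed_Icc.closure_eq])
      · by_cases h1 : t ∈ Icc b c
        · rw [hG' t h1]
          exact (h'.der k x t h1).congr (fun s hs => by rw [hG s hs]) (by rw [hG t h1])
        · exact HasFDerivWithinAt.of_notMem_closure (by rwa [isClosed_Icc.closure_eq])
    derL2 := fun k t ht δ hδ => by
      have p1 : ∃ η > 0, ∀ s ∈ Icc a b, |s - t| ≤ η →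
          ∫ x, iteratedDeriv k ((if s ≤ b then f s else g s) - (if t ≤ b then f t else g t) -
            (s - t) • (if t ≤ b then f' t else g' t)) x ^ 2 ≤ δ * (s - t) ^ 2 := by
        by_cases h1 : t ∈ Icc a b
        · obtain ⟨η, hη, h2⟩ := h.derL2 k t h1 δ hδ
          refine ⟨η, hη, fun s hs hst => ?_⟩
          rw [hF s hs, hF t h1, hF' t h1]
          exact h2 s hs hst
        · have h2 : b < t := by
            by_contra h3
            exact h1 ⟨ht.1, not_lt.1 h3⟩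
          refine ⟨(t - b) / 2, by linarith, fun s hs hst => ?_⟩
          exfalso
          have := (abs_le.1 hst).1
          have := hs.2
          linarith
      have p2 : ∃ η > 0, ∀ s ∈ Icc b c, |s - t| ≤ η →
          ∫ x, iteratedDeriv k ((if s ≤ b then f s else g s) - (if t ≤ b then f t else g t) -
            (s - t) • (if t ≤ b then f' t else g' t)) x ^ 2 ≤ δ * (s - t) ^ 2 := by
        by_cases h1 : t ∈ Icc b c
        · obtain ⟨η, hη, h2⟩ := h'.derL2 k t h1 δ hδ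
          refine ⟨η, hη, fun s hs hst => ?_⟩
          rw [hG s hs, hG t h1, hG' t h1]
          exact h2 s hs hst
        · have h2 : t < b := by
            by_contra h3
            exact h1 ⟨not_lt.1 h3, ht.2⟩
          refine ⟨(b - t) / 2, by linarith, fun s hs hst => ?_⟩
          exfalso
          have := (abs_le.1 hst).2
          have := hs.1
          linarith
      obtain ⟨η1, hη1, q1⟩ := p1
      obtain ⟨η2, hη2, q2⟩ := p2
      refine ⟨min η1 η2, lt_min hη1 hη2, fun s hs hst => ?_⟩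
      rcases hcases s hs with h1 | h1
      · exact q1 s h1 (hst.trans (min_le_left _ _))
      · exact q2 s h1 (hst.trans (min_le_right _ _)) }

theorem C1int (h : C1 a b f f') (h' : C1 a b g g') : ∀ t ∈ Icc a b,
    HasDerivWithinAt (fun s => ∫ x, f s x * g s x)
      ((∫ x, f' t x * g t x) + ∫ x, f t x * g' t x) (Icc a b) t := by
  intro t ht
  rw [hasDerivWithinAt_iff_isLittleO, Asymptotics.isLittleO_iff]
  intro c hc
  obtain ⟨Lg, hLg, bg⟩ := C1bdd h' 0
  obtain ⟨Lg', hLg', η1, hη1, lg⟩ := C1lip h' 0 t ht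
  set A := Q 0 (f t) with hA
  set A' := Q 0 (f' t) with hA'
  have hA0 : 0 ≤ A := Q_nonneg _ _
  have hA0' : 0 ≤ A' := Q_nonneg _ _
  set M := Lg + A + 1 with hM
  have hM0 : 0 < M := by positivity
  obtain ⟨η2, hη2, rf⟩ := C1L2 h 0 t ht (c ^ 2 / (9 * M)) (by positivity)
  obtain ⟨η3, hη3, rg⟩ := C1L2 h' 0 t ht (c ^ 2 / (9 * M)) (by positivity)
  set η4 := Real.sqrt (c ^ 2 / (9 * (A' * Lg' + 1))) with hη4
  have hη4p : 0 < η4 := Real.sqrt_pos.2 (by positivity)
  have hev : ∀ᶠ s in 𝓝[Icc a b] t, s ∈ Icc a b ∧ |s - t| ≤ min (min η1 η2) (min η3 η4) := by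
    refine (eventually_mem_nhdsWithin).and ?_
    refine eventually_nhdsWithin_of_eventually_nhds ?_
    have hpos : 0 < min (min η1 η2) (min η3 η4) := by positivity
    filter_upwards [Metric.closedBall_mem_nhds t hpos] with s hs
    rwa [Metric.mem_closedBall, Real.dist_eq] at hs
  filter_upwards [hev] with s hs0
  obtain ⟨hs, hst⟩ := hs0
  have hs1 : |s - t| ≤ η1 := hst.trans ((min_le_left _ _).trans (min_le_left _ _))
  have hs2 : |s - t| ≤ η2 := hst.trans ((min_le_left _ _).trans (min_le_right _ _))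
  have hs3 : |s - t| ≤ η3 := hst.trans ((min_le_right _ _).trans (min_le_left _ _))
  have hs4 : |s - t| ≤ η4 := hst.trans ((min_le_right _ _).trans (min_le_right _ _))
  have m1 : f s - f t - (s - t) • f' t ∈ HI :=
    HI.sub_mem (HI.sub_mem (h.mem s hs) (h.mem t ht)) (HI.smul_mem _ (h.mem' t ht))
  have m2 : g s - g t - (s - t) • g' t ∈ HI :=
    HI.sub_mem (HI.sub_mem (h'.mem s hs) (h'.mem t ht)) (HI.smul_mem _ (h'.mem' t ht))
  have m3 : g s - g t ∈ HI := HI.sub_mem (h'.mem s hs) (h'.mem t ht)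
  have m4 : (s - t) • f' t ∈ HI := HI.smul_mem _ (h.mem' t ht)
  set u1 : X := ⟨f s - f t - (s - t) • f' t, m1⟩ with hu1
  set u2 : X := ⟨(s - t) • f' t, m4⟩ with hu2
  have e : (∫ x, f s x * g s x) - (∫ x, f t x * g t x) -
      (s - t) • ((∫ x, f' t x * g t x) + ∫ x, f t x * g' t x) =
      (∫ x, (f s - f t - (s - t) • f' t) x * g s x) +
      (∫ x, ((s - t) • f' t) x * (g s - g t) x) +
      ∫ x, f t x * (g s - g t - (s - t) • g' t) x := by
    have e0 : ∀ (u v : ℝ → ℝ) (hu : u ∈ HI) (hv : v ∈ HI), ∫ x, u x * v x = ip ⟨u, hu⟩ ⟨v, hv⟩ :=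
      fun u v hu hv => rfl
    have r1 : (⟨f s - f t - (s - t) • f' t, m1⟩ : X) =
        ⟨f s, h.mem s hs⟩ - ⟨f t, h.mem t ht⟩ - (s - t) • ⟨f' t, h.mem' t ht⟩ := rfl
    have r2 : (⟨g s - g t - (s - t) • g' t, m2⟩ : X) =
        ⟨g s, h'.mem s hs⟩ - ⟨g t, h'.mem t ht⟩ - (s - t) • ⟨g' t, h'.mem' t ht⟩ := rfl
    have r3 : (⟨g s - g t, m3⟩ : X) = ⟨g s, h'.mem s hs⟩ - ⟨g t, h'.mem t ht⟩ := rfl
    have r4 : (⟨(s - t) • f' t, m4⟩ : X) = (s - t) • ⟨f' t, h.mem' t ht⟩ := rfl
    rw [e0 _ _ (h.mem s hs) (h'.mem s hs), e0 _ _ (h.mem t ht) (h'.mem t ht),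
      e0 _ _ (h.mem' t ht) (h'.mem t ht), e0 _ _ (h.mem t ht) (h'.mem' t ht),
      e0 _ _ m1 (h'.mem s hs), e0 _ _ m4 m3, e0 _ _ (h.mem t ht) m2, r1, r2, r3, r4]
    simp only [map_sub, map_smul, LinearMap.sub_apply, LinearMap.smul_apply, smul_eq_mul]
    ring
  have hQ0 : ∀ u : ℝ → ℝ, Q 0 u = ∫ x, u x ^ 2 := fun u => by simp [Q]
  have c1 := cs m1 (h'.mem s hs)
  have c2 := cs m4 m3
  have c3 := cs (h.mem t ht) m2
  rw [← hQ0, ← hQ0] at c1 c2 c3
  rw [Q_smul (h.mem' t ht)] at c2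
  have r1 := rf s hs hs2
  have r2 := lg s hs hs1
  have r3 := rg s hs hs3
  have r4 := bg s hs
  set w := (s - t) ^ 2 with hw
  have hw0 : 0 ≤ w := sq_nonneg _
  have hw4 : w ≤ c ^ 2 / (9 * (A' * Lg' + 1)) := by
    have := pow_le_pow_left₀ (abs_nonneg (s - t)) hs4 2
    rw [sq_abs, hη4, Real.sq_sqrt (by positivity)] at this
    exact this
  have hcw : 0 ≤ c ^ 2 * w := by positivity
  have k1 : Q 0 (f s - f t - (s - t) • f' t) * Q 0 (g s) ≤ c ^ 2 / 9 * w := by
    refine (mul_le_mul r1 r4 (Q_nonneg _ _) (by positivity)).trans ?_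
    have : c ^ 2 / (9 * M) * w * Lg = Lg / M * (c ^ 2 / 9 * w) := by field_simp
    rw [this]
    have h1 : Lg / M ≤ 1 := by rw [div_le_one hM0]; linarith
    nlinarith
  have k2 : w * A' * Q 0 (g s - g t) ≤ c ^ 2 / 9 * w := by
    refine (mul_le_mul_of_nonneg_left r2 (by positivity)).trans ?_
    have h2 : (A' * Lg') * w ≤ c ^ 2 / 9 := by
      have h3 : (A' * Lg') * w ≤ (A' * Lg' + 1) * (c ^ 2 / (9 * (A' * Lg' + 1))) :=
        mul_le_mul (by linarith) hw4 hw0 (by positivity)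
      have h4 : (A' * Lg' + 1) * (c ^ 2 / (9 * (A' * Lg' + 1))) = c ^ 2 / 9 := by
        have : 0 < A' * Lg' + 1 := by positivity
        field_simp
      linarith
    have h5 := mul_le_mul_of_nonneg_right h2 hw0
    linarith
  have k3 : A * Q 0 (g s - g t - (s - t) • g' t) ≤ c ^ 2 / 9 * w := by
    refine (mul_le_mul_of_nonneg_left r3 hA0).trans ?_
    have : A * (c ^ 2 / (9 * M) * w) = A / M * (c ^ 2 / 9 * w) := by field_simp
    rw [this]
    have h1 : A / M ≤ 1 := by rw [div_le_one hM0]; linarith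
    nlinarith
  rw [e, Real.norm_eq_abs, Real.norm_eq_abs]
  have d1 : ∀ z : ℝ, z ^ 2 ≤ c ^ 2 / 9 * w → |z| ≤ c / 3 * |s - t| := by
    intro z hz
    refine abs_le_of_sq_le_sq ?_ (by positivity)
    rw [mul_pow, sq_abs]
    refine hz.trans (le_of_eq ?_)
    rw [hw]
    ring
  have d2 := d1 _ (c1.trans k1)
  have d3 := d1 _ (c2.trans k2)
  have d4 := d1 _ (c3.trans k3)
  refine (abs_add_le _ _).trans ?_
  have d5 := abs_add_le (∫ x, (f s - f t - (s - t) • f' t) x * g s x)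
    (∫ x, ((s - t) • f' t) x * (g s - g t) x)
  linarith

end C1

theorem c1r : G_C1R :=
  ⟨fun _ _ _ _ _ _ h h' => ⟨C1add h h', C1mul h h'⟩, fun _ _ _ _ k h => C1D h k,
    fun _ _ _ _ _ _ h ha hb => C1res h ha hb, fun _ _ c _ _ h => C1trans h c,
    fun _ _ _ _ _ _ _ hab hbc h h' e e' => C1glue hab hbc h h' e e',
    fun _ _ _ _ _ _ h h' => C1int h h'⟩

end Pool.Agent.Helper62.KL
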